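import Mathlib
import Pool.Agent.Helper35.HSF.StA

/-! Module BLI of project HSF: touching balls, first form, and injectivity. -/

set_option autoImplicit false

namespace Helper29.HSF

open Helper35.HSF Helper35.MS Helper35.PI Helper35.PI2 Helper32.CL
open scoped ContDiff Manifold Topology ENNReal BigOperators
open MeasureTheory Set Filter

section

variable {n : ℕ} {M : Type} [TopologicalSpace M] [ChartedSpace (EE n) M]

private theorem bli_diff [IsManifold (𝓡 n) ∞ M] {N : ℕ} {f : M → EE N}
    (hf : ContMDiff (𝓡 n) 𝓘(ℝ, EE N) ∞ f) (p : M) {y : EE n}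
    (hy : y ∈ (chartAt (EE n) p).target) :
    DifferentiableAt ℝ (fun y => f ((chartAt (EE n) p).symm y)) y := by
  have h1 : ContMDiffOn (𝓡 n) (𝓡 n) ∞ (chartAt (EE n) p).symm (chartAt (EE n) p).target :=
    contMDiffOn_chart_symm
  have h2 : ContMDiffOn (𝓡 n) 𝓘(ℝ, EE N) ∞ (fun y => f ((chartAt (EE n) p).symm y))
      (chartAt (EE n) p).target := hf.comp_contMDiffOn h1
  have h3 : ContDiffOn ℝ ∞ (fun y => f ((chartAt (EE n) p).symm y))
      (chartAt (EE n) p).target := contMDiffOn_iff_contDiffOn.1 h2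
  exact (h3.contDiffAt ((chartAt (EE n) p).open_target.mem_nhds hy)).differentiableAt (by simp)

private theorem bli_hyp_neg {ρ t : ℝ} {F ν : M → ℝ → EE (n + 2)} (h : Hyp n ρ t F ν) :
    Hyp n ρ t F (fun q t => -ν q t) where
  ρ0 := h.ρ0
  sF := h.sF
  sν := h.sν.neg
  im := h.im
  nF := h.nF
  nν := fun q => by rw [norm_neg]; exact h.nν q
  Fν := fun q => by rw [inner_neg_right, h.Fν q, neg_zero]
  tν := fun q v hv => by rw [inner_neg_right, h.tν q v hv, neg_zero]

private theorem bli_hn_neg (F ν : M → ℝ → EE (n + 2)) (q : M) (t : ℝ) (c : Fin n → ℝ) :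
    hn F (fun q t => -ν q t) q t c = -hn F ν q t c := by
  unfold hn
  rw [inner_neg_right]

end

/-- Consequences of ASP for the pair `g = (s/ρ)F + cν`, `η = -(c/ρ)F + sν`. -/
private theorem bli_asp (hASP : StASP) (hWEI : StWEI) (n : ℕ) (hn2 : 2 ≤ n) (M : Type)
    [TopologicalSpace M] [T2Space M]
    [CompactSpace M] [ConnectedSpace M] [ChartedSpace (EE n) M] [IsManifold (𝓡 n) ∞ M]
    (ρ t : ℝ) (F ν : M → ℝ → EE (n + 2)) (h : Hyp n ρ t F ν) (τ : ℝ) (hτ : 0 < τ)
    (hb : ∀ q, ∀ c : Fin n → ℝ, gn F q t c = 1 →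
        -(1 / τ) < ρ * hn F ν q t c ∧ ρ * hn F ν q t c < τ) (s c : ℝ) (hc : 0 < c)
    (hs : s = τ * c) (h1 : s ^ 2 + c ^ 2 = 1) :
    (∀ x y, 0 ≤ (inner ℝ ((s / ρ) • F y t + c • ν y t) (-(c / ρ) • F x t + s • ν x t) : ℝ)) ∧
      ∀ x y, (s / ρ) • F x t + c • ν x t = (s / ρ) • F y t + c • ν y t →
        -(c / ρ) • F x t + s • ν x t = -(c / ρ) • F y t + s • ν y t → x = y := by
  have hρ := h.ρ0
  have hs0 : 0 < s := by rw [hs]; positivity
  obtain ⟨hW1, hW2⟩ := hWEI n M ρ t F ν h
  have hFF : ∀ q, (inner ℝ (F q t) (F q t) : ℝ) = ρ ^ 2 := fun q => by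
    rw [real_inner_self_eq_norm_sq, h.nF]
  have hνν : ∀ q, (inner ℝ (ν q t) (ν q t) : ℝ) = 1 := fun q => by
    rw [real_inner_self_eq_norm_sq, h.nν, one_pow]
  have hνF : ∀ q, (inner ℝ (ν q t) (F q t) : ℝ) = 0 := fun q => by
    rw [real_inner_comm]; exact h.Fν q
  have hdF : ∀ (p : M), ∀ y ∈ (chartAt (EE n) p).target,
      DifferentiableAt ℝ (fun y => F ((chartAt (EE n) p).symm y) t) y :=
    fun p y hy => bli_diff h.sF p hy
  have hdν : ∀ (p : M), ∀ y ∈ (chartAt (EE n) p).target,
      DifferentiableAt ℝ (fun y => ν ((chartAt (EE n) p).symm y) t) y :=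
    fun p y hy => bli_diff h.sν p hy
  have hD : ∀ (a b : ℝ) (p : M), ∀ y ∈ (chartAt (EE n) p).target, ∀ v : EE n,
      fderiv ℝ (fun y => a • F ((chartAt (EE n) p).symm y) t
        + b • ν ((chartAt (EE n) p).symm y) t) y v
        = a • fderiv ℝ (fun y => F ((chartAt (EE n) p).symm y) t) y v
          + b • fderiv ℝ (fun y => ν ((chartAt (EE n) p).symm y) t) y v := by
    intro a b p y hy v
    have h2 := ((hdF p y hy).hasFDerivAt.const_smul a).add ((hdν p y hy).hasFDerivAt.const_smul b)
    have h3 : fderiv ℝ (fun y => a • F ((chartAt (EE n) p).symm y) t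
        + b • ν ((chartAt (EE n) p).symm y) t) y = _ := h2.fderiv
    rw [h3]
    rfl
  have hsm : ∀ a b : ℝ, ContMDiff (𝓡 n) 𝓘(ℝ, EE (n + 2)) ∞ (fun q => a • F q t + b • ν q t) := by
    intro a b
    have ca : ContMDiff (𝓡 n) 𝓘(ℝ, ℝ) ∞ (fun _ : M => a) := contMDiff_const
    have cb : ContMDiff (𝓡 n) 𝓘(ℝ, ℝ) ∞ (fun _ : M => b) := contMDiff_const
    have e1 : ContMDiff (𝓡 n) 𝓘(ℝ, EE (n + 2)) ∞ (fun q => a • F q t) := ca.smul h.sF
    have e2 : ContMDiff (𝓡 n) 𝓘(ℝ, EE (n + 2)) ∞ (fun q => b • ν q t) := cb.smul h.sν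
    exact e1.add e2
  refine hASP n hn2 M (fun q => (s / ρ) • F q t + c • ν q t)
    (fun q => -(c / ρ) • F q t + s • ν q t) ?_ ?_ ?_ ?_ ?_ ?_ ?_
  · exact hsm (s / ρ) c
  · exact hsm (-(c / ρ)) s
  · intro q
    have h2 : ‖(s / ρ) • F q t + c • ν q t‖ ^ 2 = 1 := by
      rw [← real_inner_self_eq_norm_sq]
      simp only [inner_add_left, inner_add_right, real_inner_smul_left, real_inner_smul_right,
        hFF, hνν, hνF, h.Fν]
      field_simp
      linear_combination ρ * h1
    have h3 := norm_nonneg ((s / ρ) • F q t + c • ν q t)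
    nlinarith
  · intro q
    have h2 : ‖-(c / ρ) • F q t + s • ν q t‖ ^ 2 = 1 := by
      rw [← real_inner_self_eq_norm_sq]
      simp only [inner_add_left, inner_add_right, real_inner_smul_left, real_inner_smul_right,
        hFF, hνν, hνF, h.Fν]
      field_simp
      linear_combination ρ * h1
    have h3 := norm_nonneg (-(c / ρ) • F q t + s • ν q t)
    nlinarith
  · intro q
    simp only [inner_add_left, inner_add_right, real_inner_smul_left, real_inner_smul_right,
      hFF, hνν, hνF, h.Fν]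
    field_simp
    ring
  · intro p y hy v
    obtain ⟨e1, e2, e3, e4⟩ := hW1 p y hy v
    change (inner ℝ (fderiv ℝ (fun y => (s / ρ) • F ((chartAt (EE n) p).symm y) t
        + c • ν ((chartAt (EE n) p).symm y) t) y v) _ : ℝ) = 0
    rw [hD]
    · simp only [inner_add_left, inner_add_right, real_inner_smul_left, real_inner_smul_right,
        e1, e2, e3, e4]
      ring
    · exact hy
  · intro p y hy v hv
    have hκ : ∀ q, ∀ c : Fin n → ℝ, gn F q t c = 1 →
        -(1 / (τ * ρ)) < hn F ν q t c ∧ hn F ν q t c < τ / ρ := by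
      intro q c hq
      obtain ⟨h3, h4⟩ := hb q c hq
      constructor
      · have : -(1 / (τ * ρ)) = -(1 / τ) / ρ := by field_simp
        rw [this, div_lt_iff₀ hρ]
        linarith
      · rw [lt_div_iff₀ hρ]
        linarith
    have h5 := hW2 (-(1 / (τ * ρ))) (τ / ρ) hκ (s / ρ) (-c) (c / ρ) s ?_ p y hy v hv
    · have e1 : (fun y => (s / ρ) • F ((chartAt (EE n) p).symm y) t
          - (-c) • ν ((chartAt (EE n) p).symm y) t)
          = fun y => (s / ρ) • F ((chartAt (EE n) p).symm y) t
          + c • ν ((chartAt (EE n) p).symm y) t := by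
        funext z
        rw [neg_smul, sub_neg_eq_add]
      have e2 : (fun y => (c / ρ) • F ((chartAt (EE n) p).symm y) t
          - s • ν ((chartAt (EE n) p).symm y) t)
          = fun y => (c / ρ) • F ((chartAt (EE n) p).symm y) t
          + (-s) • ν ((chartAt (EE n) p).symm y) t := by
        funext z
        rw [neg_smul, sub_eq_add_neg]
      rw [e1, e2, hD _ _ p y hy, hD _ _ p y hy] at h5
      change (inner ℝ (fderiv ℝ (fun y => (s / ρ) • F ((chartAt (EE n) p).symm y) t
        + c • ν ((chartAt (EE n) p).symm y) t) y v)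
        (fderiv ℝ (fun y => (-(c / ρ)) • F ((chartAt (EE n) p).symm y) t
        + s • ν ((chartAt (EE n) p).symm y) t) y v) : ℝ) < 0
      rw [hD _ _ p y hy, hD _ _ p y hy]
      have e3 : (-(c / ρ)) • fderiv ℝ (fun y => F ((chartAt (EE n) p).symm y) t) y v
          + s • fderiv ℝ (fun y => ν ((chartAt (EE n) p).symm y) t) y v
          = -((c / ρ) • fderiv ℝ (fun y => F ((chartAt (EE n) p).symm y) t) y v
          + (-s) • fderiv ℝ (fun y => ν ((chartAt (EE n) p).symm y) t) y v) := by
        module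
      rw [e3, inner_neg_right]
      linarith
    · intro κ hκ1 hκ2
      have h6 : 0 < s / ρ + -c * κ := by
        rw [hs]
        have : c * κ < c * (τ / ρ) := mul_lt_mul_of_pos_left hκ2 hc
        have h7 : τ * c / ρ = c * (τ / ρ) := by ring
        rw [h7]
        linarith
      have h8 : 0 < c / ρ + s * κ := by
        have h9 : s * (-(1 / (τ * ρ))) < s * κ := mul_lt_mul_of_pos_left hκ1 hs0
        have h10 : s * (-(1 / (τ * ρ))) = -(c / ρ) := by
          rw [hs]
          field_simp
        linarith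
      exact mul_pos h6 h8

/-- First form of the touching balls. -/
private theorem bli_ball (hASP : StASP) (hWEI : StWEI) (n : ℕ) (hn2 : 2 ≤ n) (M : Type)
    [TopologicalSpace M] [T2Space M]
    [CompactSpace M] [ConnectedSpace M] [ChartedSpace (EE n) M] [IsManifold (𝓡 n) ∞ M]
    (ρ t : ℝ) (F ν : M → ℝ → EE (n + 2)) (h : Hyp n ρ t F ν) (τ : ℝ) (hτ : 0 < τ)
    (hb : ∀ q, ∀ c : Fin n → ℝ, gn F q t c = 1 →
        -(1 / τ) < ρ * hn F ν q t c ∧ ρ * hn F ν q t c < τ) (s c : ℝ) (hc : 0 < c)
    (hs : s = τ * c) (h1 : s ^ 2 + c ^ 2 = 1) (x y : M) :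
    2 * ρ * (inner ℝ (F y t - F x t) (ν x t) : ℝ) ≤ τ * ‖F y t - F x t‖ ^ 2 := by
  have hρ := h.ρ0
  have hs0 : 0 < s := by rw [hs]; positivity
  have hA := (bli_asp hASP hWEI n hn2 M ρ t F ν h τ hτ hb s c hc hs h1).1 y x
  have hFF : ∀ q, (inner ℝ (F q t) (F q t) : ℝ) = ρ ^ 2 := fun q => by
    rw [real_inner_self_eq_norm_sq, h.nF]
  have hνν : ∀ q, (inner ℝ (ν q t) (ν q t) : ℝ) = 1 := fun q => by
    rw [real_inner_self_eq_norm_sq, h.nν, one_pow]
  have hνF : ∀ q, (inner ℝ (ν q t) (F q t) : ℝ) = 0 := fun q => by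
    rw [real_inner_comm]; exact h.Fν q
  have hg : ∀ q, ‖(s / ρ) • F q t + c • ν q t‖ = 1 := by
    intro q
    have h2 : ‖(s / ρ) • F q t + c • ν q t‖ ^ 2 = 1 := by
      rw [← real_inner_self_eq_norm_sq]
      simp only [inner_add_left, inner_add_right, real_inner_smul_left, real_inner_smul_right,
        hFF, hνν, hνF, h.Fν]
      field_simp
      linear_combination ρ * h1
    have h3 := norm_nonneg ((s / ρ) • F q t + c • ν q t)
    nlinarith
  have hB : (inner ℝ ((s / ρ) • F x t + c • ν x t) ((s / ρ) • F y t + c • ν y t) : ℝ) ≤ 1 := by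
    have := real_inner_le_norm ((s / ρ) • F x t + c • ν x t) ((s / ρ) • F y t + c • ν y t)
    rw [hg, hg, one_mul] at this
    exact this
  have hD : ‖F y t - F x t‖ ^ 2 = 2 * ρ ^ 2 - 2 * inner ℝ (F x t) (F y t) := by
    rw [← real_inner_self_eq_norm_sq]
    simp only [inner_sub_left, inner_sub_right, hFF]
    rw [real_inner_comm (F x t) (F y t)]
    ring
  have hP : (inner ℝ (F y t - F x t) (ν x t) : ℝ) = inner ℝ (ν x t) (F y t) := by
    rw [inner_sub_left, h.Fν x, sub_zero, real_inner_comm]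
  rw [hD, hP]
  simp only [inner_add_left, inner_add_right, real_inner_smul_left, real_inner_smul_right] at hA hB
  -- `⟨g x, F y/ρ⟩ = s ⟨g x, g y⟩ - c ⟨g x, η y⟩`
  have hC : (s / ρ ^ 2) * (inner ℝ (F x t) (F y t) : ℝ) + (c / ρ) * inner ℝ (ν x t) (F y t)
      ≤ s := by
    have hA' := mul_nonneg hc.le hA
    have hB' := mul_le_mul_of_nonneg_left hB hs0.le
    have e1 : (s / ρ ^ 2) * (inner ℝ (F x t) (F y t) : ℝ) + (c / ρ) * inner ℝ (ν x t) (F y t)
        = s * (s / ρ * (s / ρ * inner ℝ (F x t) (F y t) + c * inner ℝ (F x t) (ν y t))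
          + c * (s / ρ * inner ℝ (ν x t) (F y t) + c * inner ℝ (ν x t) (ν y t)))
          - c * (s / ρ * (-(c / ρ) * inner ℝ (F x t) (F y t) + s * inner ℝ (F x t) (ν y t))
          + c * (-(c / ρ) * inner ℝ (ν x t) (F y t) + s * inner ℝ (ν x t) (ν y t))) := by
      have h3 : s ^ 2 = 1 - c ^ 2 := by linarith
      field_simp
      ring_nf
      have h4 : s ^ 3 = s * (1 - c ^ 2) := by rw [← h3]; ring
      rw [h4, h3]
      ring
    rw [e1]
    nlinarith
  have h5 : (s / ρ ^ 2) * (inner ℝ (F x t) (F y t) : ℝ) * ρ ^ 2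
      = s * inner ℝ (F x t) (F y t) := by
    field_simp
  have h6 : (c / ρ) * (inner ℝ (ν x t) (F y t) : ℝ) * ρ ^ 2
      = c * ρ * inner ℝ (ν x t) (F y t) := by
    field_simp
  have h7 := mul_le_mul_of_nonneg_right hC (sq_nonneg ρ)
  rw [add_mul, h5, h6, hs] at h7
  have h8 : c * (2 * ρ * (inner ℝ (ν x t) (F y t) : ℝ))
      ≤ c * (τ * (2 * ρ ^ 2 - 2 * inner ℝ (F x t) (F y t))) := by
    nlinarith
  exact le_of_mul_le_mul_left h8 hc

/-- BLI. -/
theorem hBLI (hASP : StASP) (hWEI : StWEI) : StBLI := by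
  intro n hn2 M _ _ _ _ _ _ ρ t F ν h τ hτ
  have hρ := h.ρ0
  obtain ⟨c, hc⟩ : ∃ c : ℝ, c = 1 / Real.sqrt (1 + τ ^ 2) := ⟨_, rfl⟩
  have hq0 : 0 < Real.sqrt (1 + τ ^ 2) := Real.sqrt_pos.2 (by positivity)
  have hc0 : 0 < c := by rw [hc]; positivity
  have hcs : (τ * c) ^ 2 + c ^ 2 = 1 := by
    have h2 : Real.sqrt (1 + τ ^ 2) ^ 2 = 1 + τ ^ 2 := Real.sq_sqrt (by positivity)
    rw [hc, mul_pow, div_pow, h2]
    field_simp
    ring
  refine ⟨?_, ?_⟩
  · intro hb x y
    exact bli_ball hASP hWEI n hn2 M ρ t F ν h τ hτ hb (τ * c) c hc0 rfl hcs x y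
  · intro hτ1 hb x y hxy
    have hxy' : F x t = F y t := hxy
    have hττ : τ ≤ 1 / τ := by
      rw [le_div_iff₀ hτ]
      nlinarith
    have hb1 : ∀ q, ∀ c : Fin n → ℝ, gn F q t c = 1 →
        -(1 / τ) < ρ * hn F ν q t c ∧ ρ * hn F ν q t c < τ := by
      intro q c hq
      have := abs_lt.1 (hb q c hq)
      exact ⟨by linarith [this.1], this.2⟩
    have hball := bli_ball hASP hWEI n hn2 M ρ t F ν h τ hτ hb1 (τ * c) c hc0 rfl hcs x
    obtain ⟨hA1, hA2⟩ := bli_asp hASP hWEI n hn2 M ρ t F ν h τ hτ hb1 (τ * c) c hc0 rfl hcs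
    have hFF : ∀ q, (inner ℝ (F q t) (F q t) : ℝ) = ρ ^ 2 := fun q => by
      rw [real_inner_self_eq_norm_sq, h.nF]
    have hνν : ∀ q, (inner ℝ (ν q t) (ν q t) : ℝ) = 1 := fun q => by
      rw [real_inner_self_eq_norm_sq, h.nν, one_pow]
    have hνF : ∀ q, (inner ℝ (ν q t) (F q t) : ℝ) = 0 := fun q => by
      rw [real_inner_comm]; exact h.Fν q
    -- the preferred chart at `y`
    have hmem : chartAt (EE n) y y ∈ (chartAt (EE n) y).target := mem_chart_target _ _
    have hsy : (chartAt (EE n) y).symm (chartAt (EE n) y y) = y :=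
      (chartAt (EE n) y).left_inv (mem_chart_source _ _)
    have hd : HasFDerivAt (loc (n := n) F y t)
        (fderiv ℝ (loc (n := n) F y t) (chartAt (EE n) y y)) (chartAt (EE n) y y) :=
      (bli_diff h.sF y hmem).hasFDerivAt
    have hloc : loc (n := n) F y t (chartAt (EE n) y y) = F y t := by
      change F ((chartAt (EE n) y).symm (chartAt (EE n) y y)) t = F y t
      rw [hsy]
    -- `ν x` is orthogonal to the tangent space at `y`
    have hTx : ∀ v : EE n, (inner ℝ (ν x t)
        (fderiv ℝ (loc (n := n) F y t) (chartAt (EE n) y y) v) : ℝ) = 0 := by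
      have h2 : HasFDerivAt (fun z => 2 * ρ * (inner ℝ (ν x t) (loc (n := n) F y t z) : ℝ)
          - τ * ‖loc (n := n) F y t z - F y t‖ ^ 2)
          ((2 * ρ) • ((innerSL ℝ (ν x t)).comp
            (fderiv ℝ (loc (n := n) F y t) (chartAt (EE n) y y)))
          - τ • (2 • (innerSL ℝ (loc (n := n) F y t (chartAt (EE n) y y) - F y t)).comp
            (fderiv ℝ (loc (n := n) F y t) (chartAt (EE n) y y)))) (chartAt (EE n) y y) := by
        have h3 : HasFDerivAt (fun z => (inner ℝ (ν x t) (loc (n := n) F y t z) : ℝ))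
            ((innerSL ℝ (ν x t)).comp
            (fderiv ℝ (loc (n := n) F y t) (chartAt (EE n) y y))) (chartAt (EE n) y y) :=
          (innerSL ℝ (ν x t)).hasFDerivAt.comp _ hd
        have h4 := (hd.sub_const (F y t)).norm_sq
        exact (h3.const_mul (2 * ρ)).sub (h4.const_mul τ)
      have h5 : IsLocalMax (fun z => 2 * ρ * (inner ℝ (ν x t) (loc (n := n) F y t z) : ℝ)
          - τ * ‖loc (n := n) F y t z - F y t‖ ^ 2) (chartAt (EE n) y y) := by
        refine Filter.Eventually.of_forall (fun z => ?_)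
        change 2 * ρ * (inner ℝ (ν x t) (loc (n := n) F y t z) : ℝ)
          - τ * ‖loc (n := n) F y t z - F y t‖ ^ 2
          ≤ 2 * ρ * (inner ℝ (ν x t) (loc (n := n) F y t (chartAt (EE n) y y)) : ℝ)
          - τ * ‖loc (n := n) F y t (chartAt (EE n) y y) - F y t‖ ^ 2
        rw [hloc, sub_self, norm_zero, ← hxy', hνF x]
        have h6 := hball ((chartAt (EE n) y).symm z)
        have h7 : loc (n := n) F y t z = F ((chartAt (EE n) y).symm z) t := rfl
        rw [h7]
        rw [inner_sub_left, h.Fν x, sub_zero, real_inner_comm] at h6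
        linarith
      have h8 := h5.hasFDerivAt_eq_zero h2
      intro v
      have h9 := congrArg (fun L : EE n →L[ℝ] ℝ => L v) h8
      simp only [hloc, sub_self, map_zero, ContinuousLinearMap.zero_comp, smul_zero, sub_zero] at h9
      have h10 : 2 * ρ * (inner ℝ (ν x t)
        (fderiv ℝ (loc (n := n) F y t) (chartAt (EE n) y y) v) : ℝ) = 0 := h9
      have h11 : (2 * ρ) ≠ 0 := by positivity
      exact (mul_eq_zero.1 h10).resolve_left h11
    -- the tangent space
    have hTS : ∀ (u : EE (n + 2)), (∀ v : EE n, (inner ℝ u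
        (fderiv ℝ (loc (n := n) F y t) (chartAt (EE n) y y) v) : ℝ) = 0) →
        u ∈ (TS (n := n) F y t)ᗮ := by
      intro u hu
      rw [Submodule.mem_orthogonal]
      intro w hw
      refine Submodule.span_induction (p := fun w _ => (inner ℝ w u : ℝ) = 0) ?_ ?_ ?_ ?_ hw
      · rintro _ ⟨i, rfl⟩
        rw [real_inner_comm]
        exact hu (ee i)
      · exact inner_zero_left _
      · intro a b _ _ ha hb
        rw [inner_add_left, ha, hb, add_zero]
      · intro a b _ hb
        rw [real_inner_smul_left, hb, mul_zero]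
    obtain ⟨hW1, -⟩ := hWEI n M ρ t F ν h
    have hFy : F y t ∈ (TS (n := n) F y t)ᗮ := by
      refine hTS _ (fun v => ?_)
      have := (hW1 y _ hmem v).2.2.2
      rw [hsy] at this
      rw [real_inner_comm]
      exact this
    have hνy : ν y t ∈ (TS (n := n) F y t)ᗮ := by
      refine hTS _ (fun v => ?_)
      have := (hW1 y _ hmem v).1
      rw [hsy] at this
      rw [real_inner_comm]
      exact this
    have hνx : ν x t ∈ (TS (n := n) F y t)ᗮ := hTS _ hTx
    have hfr : Module.finrank ℝ (TS (n := n) F y t) = n := by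
      have := finrank_span_eq_card (h.im y)
      rw [Fintype.card_fin] at this
      exact this
    have hfr2 : Module.finrank ℝ ((TS (n := n) F y t)ᗮ : Submodule ℝ (EE (n + 2))) = 2 := by
      have h2 := (TS (n := n) F y t).finrank_add_finrank_orthogonal
      have h3 : Module.finrank ℝ (EE (n + 2)) = n + 2 := finrank_euclideanSpace_fin
      rw [hfr, h3] at h2
      omega
    -- `ν x` is a multiple of `ν y`
    obtain ⟨k, hk⟩ : ∃ k : ℝ, k = inner ℝ (ν x t) (ν y t) := ⟨_, rfl⟩
    have hu : ν x t - k • ν y t = 0 := by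
      by_contra hne
      have hli : LinearIndependent ℝ ![F y t, ν y t, ν x t - k • ν y t] := by
        refine linearIndependent_of_ne_zero_of_inner_eq_zero (𝕜 := ℝ) ?_ ?_
        · intro i
          have hF0 : F y t ≠ 0 := by
            intro h0
            have := h.nF y
            rw [h0, norm_zero] at this
            exact hρ.ne this
          have hν0 : ν y t ≠ 0 := by
            intro h0
            have := h.nν y
            rw [h0, norm_zero] at this
            exact zero_ne_one this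
          fin_cases i
          · exact hF0
          · exact hν0
          · exact hne
        · have i1 : (inner ℝ (F y t) (ν y t) : ℝ) = 0 := h.Fν y
          have i2 : (inner ℝ (F y t) (ν x t - k • ν y t) : ℝ) = 0 := by
            rw [inner_sub_right, real_inner_smul_right, h.Fν y, mul_zero, sub_zero, ← hxy']
            exact h.Fν x
          have i3 : (inner ℝ (ν y t) (ν x t - k • ν y t) : ℝ) = 0 := by
            rw [inner_sub_right, real_inner_smul_right, hνν, mul_one, hk, real_inner_comm,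
              sub_self]
          intro i j hij
          fin_cases i <;> fin_cases j
          · exact absurd rfl hij
          · exact i1
          · exact i2
          · exact (real_inner_comm _ _).trans i1
          · exact absurd rfl hij
          · exact i3
          · exact (real_inner_comm _ _).trans i2
          · exact (real_inner_comm _ _).trans i3
          · exact absurd rfl hij
      have h3 := finrank_span_eq_card hli
      rw [Fintype.card_fin] at h3
      have h4 : Submodule.span ℝ (Set.range ![F y t, ν y t, ν x t - k • ν y t])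
          ≤ (TS (n := n) F y t)ᗮ := by
        rw [Submodule.span_le]
        rintro _ ⟨i, rfl⟩
        fin_cases i
        · exact hFy
        · exact hνy
        · exact Submodule.sub_mem _ hνx (Submodule.smul_mem _ _ hνy)
      have h5 := Submodule.finrank_mono h4
      rw [h3, hfr2] at h5
      omega
    have hνxy : ν x t = k • ν y t := sub_eq_zero.1 hu
    have hkk : k ^ 2 = 1 := by
      have h2 := hνν x
      rw [hνxy, real_inner_smul_left, real_inner_smul_right, hνν] at h2
      linarith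
    have hk1 : k = 1 ∨ k = -1 := by
      have h2 : (k - 1) * (k + 1) = 0 := by linear_combination hkk
      rcases mul_eq_zero.1 h2 with h3 | h3
      · exact Or.inl (by linarith)
      · exact Or.inr (by linarith)
    rcases hk1 with hk1 | hk1
    · rw [hk1, one_smul] at hνxy
      apply hA2 x y
      · rw [hxy', hνxy]
      · rw [hxy', hνxy]
    · exfalso
      rw [hk1] at hνxy
      have h2 := hA1 x y
      rw [hxy', hνxy] at h2
      simp only [inner_add_left, inner_add_right, real_inner_smul_left, real_inner_smul_right,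
        hFF, hνν, hνF, h.Fν] at h2
      have h3 : τ * c / ρ * (-(c / ρ) * ρ ^ 2 + τ * c * (-1 * 0)) +
          c * (-(c / ρ) * 0 + τ * c * (-1 * 1)) = -(2 * (τ * c * c)) := by
        field_simp
        ring
      have h4 : 0 < τ * c * c := by positivity
      nlinarith

end Helper29.HSF
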