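import Mathlib
import Pool.Agent.Helper35.HSF.StE

/-! Module EPW of project HSF: real powers of a positive function. -/

set_option autoImplicit false

namespace Helper29.HSF

open Helper35.HSF Helper35.MS Helper35.PI Helper35.PI2 Helper32.CL
open scoped ContDiff Manifold Topology ENNReal BigOperators
open MeasureTheory Set Filter

section

variable {n N : ℕ} {M : Type} [TopologicalSpace M] [ChartedSpace (EE n) M]

private theorem epw_chart {V : Type*} {h1 h2 : M → V} {q : M} (he : ∀ᶠ q' in 𝓝 q, h1 q' = h2 q') :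
    (fun y => h1 ((chartAt (EE n) q).symm y)) =ᶠ[𝓝 (chartAt (EE n) q q)]
      fun y => h2 ((chartAt (EE n) q).symm y) := by
  have h3 : ContinuousAt (chartAt (EE n) q).symm (chartAt (EE n) q q) :=
    (chartAt (EE n) q).continuousAt_symm (mem_chart_target _ _)
  have h4 : (chartAt (EE n) q).symm (chartAt (EE n) q q) = q :=
    (chartAt (EE n) q).left_inv (mem_chart_source _ _)
  have h5 : Tendsto (chartAt (EE n) q).symm (𝓝 (chartAt (EE n) q q)) (𝓝 q) := by
    have := h3.tendsto
    rwa [h4] at this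
  exact h5.eventually he

private theorem epw_gd (F : M → ℝ → EE N) (t : ℝ) {h1 h2 : M → ℝ} {q : M}
    (he : ∀ᶠ q' in 𝓝 q, h1 q' = h2 q') : gdM n F t h1 q = gdM n F t h2 q := by
  unfold gdM
  rw [(epw_chart (n := n) he).fderiv_eq]

private theorem epw_dvg (F : M → ℝ → EE N) (t : ℝ) {X1 X2 : M → EE N} {q : M}
    (he : ∀ᶠ q' in 𝓝 q, X1 q' = X2 q') : dvg (n := n) F X1 q t = dvg (n := n) F X2 q t := by
  unfold dvg
  rw [(epw_chart (n := n) he).fderiv_eq]

end

private theorem epw_psi (c m : ℝ) (hc : 0 < c) :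
    ∃ ψ : ℝ → ℝ, ContDiff ℝ ∞ ψ ∧ ψ =ᶠ[𝓝 c] fun x => x ^ m := by
  obtain ⟨f, hf1, hf2⟩ : ∃ f : ContDiffBump c, f.rIn = c / 4 ∧ f.rOut = c / 2 :=
    ⟨⟨c / 4, c / 2, by positivity, by linarith⟩, rfl, rfl⟩
  refine ⟨fun x => f x * x ^ m, ?_, ?_⟩
  · rw [contDiff_iff_contDiffAt]
    intro x
    rcases lt_or_ge 0 x with hx | hx
    · exact f.contDiff.contDiffAt.mul (Real.contDiffAt_rpow_const_of_ne hx.ne')
    · have h1 : (fun x => f x * x ^ m) =ᶠ[𝓝 x] fun _ => (0 : ℝ) := by
        filter_upwards [Iio_mem_nhds (show x < c / 2 by linarith)] with y hy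
        have h2 : f.rOut ≤ dist y c := by
          rw [hf2, Real.dist_eq, abs_sub_comm]
          have h3 : y < c / 2 := hy
          have h4 : 0 ≤ c - y := by linarith
          rw [abs_of_nonneg h4]
          linarith
        rw [f.zero_of_le_dist h2, zero_mul]
      exact contDiffAt_const.congr_of_eventuallyEq h1
  · filter_upwards [Metric.closedBall_mem_nhds c (show 0 < c / 4 by positivity)] with x hx
    have h2 : f x = 1 := f.one_of_mem_closedBall (by rw [hf1]; exact hx)
    rw [h2, one_mul]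

/-- EPW. -/
theorem hEPW (hSMR : StSMR) (hHTR : StHTR) : StEPW := by
  intro n N M _ _ _ J F hI u m hu hpos
  have hS := hSMR n N M J F hI u hu
  refine ⟨?_, fun q t ht => ?_⟩
  · intro z hz
    have h1 : ContMDiffWithinAt ((𝓡 n).prod 𝓘(ℝ, ℝ)) 𝓘(ℝ, ℝ) ∞ (fun z : M × ℝ => u z.1 z.2)
      (univ ×ˢ J) z := hu z hz
    have h2 : ContDiffAt ℝ ∞ (fun x : ℝ => x ^ m) (u z.1 z.2) :=
      Real.contDiffAt_rpow_const_of_ne (hpos z.1 z.2 hz.2).ne'
    exact h2.contMDiffAt.comp_contMDiffWithinAt z h1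
  · obtain ⟨ψ, hψ, hψe⟩ := epw_psi (u q t) m (hpos q t ht)
    obtain ⟨-, h2⟩ := (hHTR n N M J F hI u u hu hu).2.2.1 ψ hψ
    obtain ⟨h3, h4⟩ := h2 q t ht
    have hcu : ContinuousAt (fun q => u q t) q := (hS.1 t ht).1.continuous.continuousAt
    have hcs : ContinuousAt (fun s => u q s) t := (hS.2.2.2.1 q t ht).continuousAt
    have e1 : ∀ᶠ q' in 𝓝 q, u q' t ^ m = ψ (u q' t) :=
      hcu.eventually (hψe.mono fun x hx => hx.symm)
    have e2 : ∀ᶠ s in 𝓝 t, u q s ^ m = ψ (u q s) :=
      hcs.eventually (hψe.mono fun x hx => hx.symm)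
    have d1 : deriv ψ (u q t) = m * u q t ^ (m - 1) := by
      rw [hψe.deriv_eq, (Real.hasDerivAt_rpow_const (Or.inl (hpos q t ht).ne')).deriv]
    have d2 : deriv (deriv ψ) (u q t) = m * (m - 1) * u q t ^ (m - 2) := by
      have h5 : deriv ψ =ᶠ[𝓝 (u q t)] fun x => m * x ^ (m - 1) := by
        filter_upwards [hψe.deriv, Ioi_mem_nhds (hpos q t ht)] with x hx hx0
        have hx0' : 0 < x := hx0
        rw [hx, (Real.hasDerivAt_rpow_const (Or.inl hx0'.ne')).deriv]
      have h6 := ((Real.hasDerivAt_rpow_const (p := m - 1)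
        (Or.inl (hpos q t ht).ne')).const_mul m).deriv
      rw [h5.deriv_eq, h6, show m - 1 - 1 = m - 2 by ring]
      ring
    refine ⟨?_, ?_⟩
    · rw [epw_gd F t e1, h3, d1]
    · have h7 : htN n F (fun q t => u q t ^ m) q t = htN n F (fun q t => ψ (u q t)) q t := by
        have h8 : deriv (fun s => u q s ^ m) t = deriv (fun s => ψ (u q s)) t :=
          Filter.EventuallyEq.deriv_eq e2
        have h9 : dvg (n := n) F (gdM n F t (fun q => u q t ^ m)) q t
            = dvg (n := n) F (gdM n F t (fun q => ψ (u q t))) q t := by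
          refine epw_dvg F t ?_
          filter_upwards [e1.eventually_nhds] with q' hq'
          exact epw_gd F t hq'
        change deriv (fun s => u q s ^ m) t - dvg (n := n) F (gdM n F t (fun q => u q t ^ m)) q t
          = deriv (fun s => ψ (u q s)) t - dvg (n := n) F (gdM n F t (fun q => ψ (u q t))) q t
        rw [h8, h9]
      rw [h7, h4, d1, d2]

end Helper29.HSF
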