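import Mathlib
import Pool.Agent.Helper35.HSF.StH

/-! Module KEX of project HSF: an interior point. -/

set_option autoImplicit false

namespace Helper29.HSF

open Helper35.HSF Helper35.MS Helper35.PI Helper35.PI2 Helper32.CL
open scoped ContDiff Manifold Topology ENNReal BigOperators
open MeasureTheory Set Filter

private theorem kex_smooth {n : ℕ} {M : Type} [TopologicalSpace M] [ChartedSpace (EE n) M]
    [IsManifold (𝓡 n) ∞ M] {N : ℕ} {f : M → EE N}
    (hf : ContMDiff (𝓡 n) 𝓘(ℝ, EE N) ∞ f) (p : M) {y : EE n}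
    (hy : y ∈ (chartAt (EE n) p).target) :
    ContDiffAt ℝ ∞ (fun y => f ((chartAt (EE n) p).symm y)) y := by
  have h1 : ContMDiffOn (𝓡 n) (𝓡 n) ∞ (chartAt (EE n) p).symm (chartAt (EE n) p).target :=
    contMDiffOn_chart_symm
  have h2 : ContMDiffOn (𝓡 n) 𝓘(ℝ, EE N) ∞ (fun y => f ((chartAt (EE n) p).symm y))
      (chartAt (EE n) p).target := hf.comp_contMDiffOn h1
  have h3 : ContDiffOn ℝ ∞ (fun y => f ((chartAt (EE n) p).symm y))
      (chartAt (EE n) p).target := contMDiffOn_iff_contDiffOn.1 h2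
  exact h3.contDiffAt ((chartAt (EE n) p).open_target.mem_nhds hy)

/-- KEX. -/
theorem hKEX (hASP : StASP) : StKEX := by
  intro n hn M _ _ _ _ _ _ g η h
  obtain ⟨hA, -⟩ := hASP n hn M g η h.sg h.sη h.ng h.nη h.gη h.tη h.df
  have hpos : ∀ x, ∃ y, 0 < (inner ℝ (g y) (η x) : ℝ) := by
    intro x
    by_contra hcon
    have h0 : ∀ y, (inner ℝ (g y) (η x) : ℝ) = 0 := fun y =>
      le_antisymm (not_lt.1 fun hlt => hcon ⟨y, hlt⟩) (hA x y)
    obtain ⟨G, hG⟩ : ∃ G : EE n → EE (n + 2), G = fun y => g ((chartAt (EE n) x).symm y) :=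
      ⟨_, rfl⟩
    obtain ⟨E, hE⟩ : ∃ E : EE n → EE (n + 2), E = fun y => η ((chartAt (EE n) x).symm y) :=
      ⟨_, rfl⟩
    obtain ⟨v, hv⟩ : ∃ v : EE n, v ≠ 0 := by
      have : Nonempty (Fin n) := ⟨⟨0, by omega⟩⟩
      exact exists_ne 0
    have hmem : chartAt (EE n) x x ∈ (chartAt (EE n) x).target := mem_chart_target _ _
    have hsy : (chartAt (EE n) x).symm (chartAt (EE n) x x) = x :=
      (chartAt (EE n) x).left_inv (mem_chart_source _ _)
    have hGs : ∀ y ∈ (chartAt (EE n) x).target, ContDiffAt ℝ ∞ G y := by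
      intro y hy
      rw [hG]
      exact kex_smooth h.sg x hy
    have hEs : ContDiffAt ℝ ∞ E (chartAt (EE n) x x) := by
      rw [hE]
      exact kex_smooth h.sη x hmem
    -- `Dg v` is orthogonal to `η x`
    have h1 : ∀ y ∈ (chartAt (EE n) x).target, (inner ℝ (fderiv ℝ G y v) (η x) : ℝ) = 0 := by
      intro y hy
      have hd : DifferentiableAt ℝ G y := (hGs y hy).differentiableAt (by simp)
      have h2 := fderiv_inner_apply ℝ hd (differentiableAt_const (c := η x)) v
      have h3 : (fun t => (inner ℝ (G t) (η x) : ℝ)) = fun _ => 0 := by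
        funext t
        rw [hG]
        exact h0 _
      rw [h3] at h2
      simp only [fderiv_const_apply, ContinuousLinearMap.zero_apply, inner_zero_right,
        zero_add] at h2
      exact h2.symm
    have h2 : ∀ y ∈ (chartAt (EE n) x).target,
        (inner ℝ (fderiv ℝ G y v) (E y - η x) : ℝ) = 0 := by
      intro y hy
      have h3 := h.tη x y hy v
      rw [← hG] at h3
      have h4 : (inner ℝ (fderiv ℝ G y v) (E y) : ℝ) = 0 := by
        rw [hE]
        exact h3
      rw [inner_sub_right, h1 y hy, h4, sub_zero]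
    have hd1 : DifferentiableAt ℝ (fun y => fderiv ℝ G y v) (chartAt (EE n) x x) := by
      have h3 : ContDiffAt ℝ ∞ (fderiv ℝ G) (chartAt (EE n) x x) :=
        (hGs _ hmem).fderiv_right (m := ∞) (by simp)
      exact (h3.differentiableAt (by simp)).clm_apply (differentiableAt_const v)
    have hd2 : DifferentiableAt ℝ (fun y => E y - η x) (chartAt (EE n) x x) :=
      (hEs.differentiableAt (by simp)).sub_const (η x)
    have h3 := fderiv_inner_apply ℝ hd1 hd2 v
    have h4 : (fun t => (inner ℝ (fderiv ℝ G t v) (E t - η x) : ℝ))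
        =ᶠ[𝓝 (chartAt (EE n) x x)] fun _ => 0 := by
      filter_upwards [(chartAt (EE n) x).open_target.mem_nhds hmem] with t ht
      exact h2 t ht
    rw [h4.fderiv_eq] at h3
    have h5 : E (chartAt (EE n) x x) = η x := by
      rw [hE]
      change η ((chartAt (EE n) x).symm (chartAt (EE n) x x)) = η x
      rw [hsy]
    rw [h5, sub_self, inner_zero_right, add_zero, fderiv_sub_const] at h3
    simp only [fderiv_const_apply, ContinuousLinearMap.zero_apply] at h3
    have h6 := h.df x _ hmem v hv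
    rw [← hG, ← hE, ← h3] at h6
    exact lt_irrefl _ h6
  choose Y hY using hpos
  have hopen : ∀ y : M, IsOpen {x | 0 < (inner ℝ (g y) (η x) : ℝ)} := by
    intro y
    have hc : Continuous fun x => (inner ℝ (g y) (η x) : ℝ) :=
      continuous_const.inner h.sη.continuous
    exact isOpen_lt continuous_const hc
  obtain ⟨t, ht⟩ := isCompact_univ.elim_finite_subcover
    (fun y : M => {x | 0 < (inner ℝ (g y) (η x) : ℝ)}) hopen
    (fun x _ => Set.mem_iUnion.2 ⟨Y x, hY x⟩)
  have hsum : ∀ x, 0 < (inner ℝ (∑ y ∈ t, g y) (η x) : ℝ) := by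
    intro x
    rw [sum_inner]
    obtain ⟨y, hyt, hy⟩ := Set.mem_iUnion₂.1 (ht (Set.mem_univ x))
    exact Finset.sum_pos' (fun i _ => hA x i) ⟨y, hyt, hy⟩
  obtain ⟨x0⟩ : Nonempty M := inferInstance
  have hne : (∑ y ∈ t, g y) ≠ 0 := by
    intro h0
    have := hsum x0
    rw [h0, inner_zero_left] at this
    exact lt_irrefl _ this
  have hn0 : 0 < ‖∑ y ∈ t, g y‖ := norm_pos_iff.2 hne
  refine ⟨‖∑ y ∈ t, g y‖⁻¹ • ∑ y ∈ t, g y, ?_, fun x => ?_⟩
  · rw [norm_smul, norm_inv, norm_norm, inv_mul_cancel₀ hn0.ne']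
  · rw [real_inner_smul_left]
    exact mul_pos (inv_pos.2 hn0) (hsum x)

end Helper29.HSF
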