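import Mathlib
import Pool.Agent.Helper35.HSF.StD

/-! Module PBD of project HSF: consequences of the pinching (real algebra). -/

set_option autoImplicit false

namespace Helper29.HSF

open Helper35.HSF Helper35.MS Helper35.PI Helper35.PI2 Helper32.CL
open scoped ContDiff Manifold Topology ENNReal BigOperators
open MeasureTheory Set Filter

/-- PBD. -/
theorem hPBD : StPBD := by
  intro n M _ _ k t F ν hr hk hk1 hP x hm hp
  obtain ⟨zm, hzm, hzm0⟩ := hm
  obtain ⟨zp, hzp, hzp0⟩ := hp
  have hP' := hP x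
  generalize hS : ZS n F ν x t = S at *
  generalize hR : rr n t = r at *
  refine ⟨?_, ?_⟩
  · intro z hz
    have key : (1 - k) * z ^ 2 < k / r := by
      rcases le_total 0 z with h0 | h0
      · have h1 := hP' z hz zm hzm
        have h2 : z * zm ≤ 0 := mul_nonpos_of_nonneg_of_nonpos h0 hzm0
        linarith
      · have h1 := hP' z hz zp hzp
        have h2 : z * zp ≤ 0 := mul_nonpos_of_nonpos_of_nonneg h0 hzp0
        linarith
    rw [lt_div_iff₀ hr] at key
    linarith
  · intro z₁ h₁ z₂ h₂ h10 h20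
    have e1 := hP' z₁ h₁ z₂ h₂
    have e2 := hP' z₂ h₂ z₁ h₁
    rw [lt_div_iff₀ hr] at e1 e2
    have h3 : 0 ≤ (1 - k) * (z₁ + z₂) ^ 2 * r :=
      mul_nonneg (mul_nonneg (by linarith) (sq_nonneg _)) hr.le
    nlinarith

end Helper29.HSF
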